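import Mathlib
import Pool.Agent.H77.MV.SubrackPairProof

/-!
MP_f3891b_al: finite groups with isomorphic subrack lattices and non-isomorphic conjugation racks.

The groups are the two semidirect products of `ZMod 91` by `ZMod 3` in which the generator of
`ZMod 3` acts as multiplication by `16` (that is `(2, 3)` on `ZMod 7 × ZMod 13`), respectively by
`9` (that is `(2, 9)`).
-/

namespace Pool.Agent.Results.MP_f3891b_al.SubrackPair

/-- There are finite groups with isomorphic subrack lattices and non-isomorphic conjugation
racks. -/
theorem result : ∃ (G H : Type) (_ : Group G) (_ : Group H), Finite G ∧ Finite H ∧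
    Nonempty (SubrackLattice G ≃o SubrackLattice H) ∧
    ¬ ∃ f : G ≃ H, ∀ x y : G, f (x * y * x⁻¹) = f x * f y * (f x)⁻¹ :=
  result_proof

end Pool.Agent.Results.MP_f3891b_al.SubrackPair
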